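import Pool.Agent.L0h32.LT2.Stm

set_option autoImplicit false

namespace Pool.Agent.LLead.LT2

open Finset Pool.Agent.L0h32.LT Pool.Agent.L0h32.LT2

/-- the vector of an input -/
def vec {n : ℕ} {κ : Type} (M : Fin n → (κ → ZMod 2)) (x : Inp n) : κ → ZMod 2 :=
  ∑ i, if x i then M i else 0

lemma card_fib {n : ℕ} {κ : Type} [Fintype κ] (M : Fin n → (κ → ZMod 2)) (A : Finset (Fin n))
    (I : Finset (Inp n)) (hI : ∀ a ∈ I, ∀ i, i ∉ A → a i = false)
    (v : κ → ZMod 2) (hv : ∀ a ∈ I, vec M a = v) :
    I.card * 2 ^ Module.finrank (ZMod 2) (Submodule.span (ZMod 2) (M '' A)) ≤ 2 ^ A.card := by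
  classical
  let L : (A → ZMod 2) →ₗ[ZMod 2] (κ → ZMod 2) :=
    Fintype.linearCombination (ZMod 2) (fun i : A => M i)
  have hrange : LinearMap.range L = Submodule.span (ZMod 2) (M '' A) := by
    rw [Fintype.range_linearCombination]
    congr 1
    ext u
    simp [Set.mem_image]
  have h1 := LinearMap.finrank_range_add_finrank_ker L
  rw [hrange, Module.finrank_fintype_fun_eq_card, Fintype.card_coe] at h1
  have hker : Nat.card (LinearMap.ker L) = 2 ^ Module.finrank (ZMod 2) (LinearMap.ker L) := by
    rw [Module.natCard_eq_pow_finrank (K := ZMod 2)]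
    simp
  have hle : I.card ≤ Nat.card (LinearMap.ker L) := by
    rcases I.eq_empty_or_nonempty with rfl | ⟨a0, ha0⟩
    · simp
    · let z : Inp n → (A → ZMod 2) := fun a i => if a i then 1 else 0
      have hz : ∀ a ∈ I, L (z a) = v := by
        intro a ha
        rw [← hv a ha]
        simp only [L, Fintype.linearCombination_apply, z, vec]
        rw [Finset.sum_coe_sort A (fun i => (if a i = true then (1 : ZMod 2) else 0) • M i)]
        rw [← Finset.sum_subset (subset_univ A) (f := fun i => if a i = true then M i else 0)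
          (fun i _ hi => by rw [hI a ha i hi]; simp)]
        apply sum_congr rfl
        intro i _
        split_ifs <;> simp
      let g : I → LinearMap.ker L := fun a => ⟨z a - z a0, by
        rw [LinearMap.mem_ker, map_sub, hz a a.2, hz a0 ha0, sub_self]⟩
      have hg : Function.Injective g := by
        intro a a' h
        have h2 : z a = z a' := by
          have := congrArg Subtype.val h
          simp only [g] at this
          exact sub_left_inj.1 this
        apply Subtype.ext
        funext i
        by_cases hi : i ∈ A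
        · have h3 := congrFun h2 ⟨i, hi⟩
          simp only [z] at h3
          cases h4 : (a : Inp n) i <;> cases h5 : (a' : Inp n) i <;> simp [h4, h5] at h3 ⊢
        · rw [hI _ a.2 i hi, hI _ a'.2 i hi]
      have := Nat.card_le_card_of_injective g hg
      simpa using this
  calc I.card * 2 ^ Module.finrank (ZMod 2) (Submodule.span (ZMod 2) (M '' A))
      ≤ Nat.card (LinearMap.ker L) *
        2 ^ Module.finrank (ZMod 2) (Submodule.span (ZMod 2) (M '' A)) :=
        Nat.mul_le_mul_right _ hle
    _ = 2 ^ A.card := by rw [hker, ← pow_add, add_comm, h1]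

/-- restriction to the coordinates in `P` -/
def res {κ : Type} (P : κ → Prop) : (κ → ZMod 2) →ₗ[ZMod 2] ({p // P p} → ZMod 2) where
  toFun v p := v p
  map_add' _ _ := rfl
  map_smul' _ _ := rfl

lemma rank_res {κ : Type} [Fintype κ] (P : κ → Prop) [DecidablePred P]
    (V : Submodule (ZMod 2) (κ → ZMod 2)) :
    Module.finrank (ZMod 2) V + Fintype.card {p // P p} ≤
      Module.finrank (ZMod 2) (V.map (res P)) + Fintype.card κ := by
  classical
  have h1 := LinearMap.finrank_range_add_finrank_ker ((res P).domRestrict V)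
  rw [LinearMap.range_domRestrict] at h1
  have h2 := LinearMap.finrank_range_add_finrank_ker (res P)
  have hs : LinearMap.range (res P) = ⊤ := by
    rw [LinearMap.range_eq_top]
    intro w
    refine ⟨fun p => if h : P p then w ⟨p, h⟩ else 0, ?_⟩
    funext p
    show (if h : P p.1 then w ⟨p.1, h⟩ else 0) = w p
    rw [dif_pos p.2]
  rw [hs, finrank_top, Module.finrank_fintype_fun_eq_card, Module.finrank_fintype_fun_eq_card] at h2
  have h3 : Module.finrank (ZMod 2) (LinearMap.ker ((res P).domRestrict V)) ≤
      Module.finrank (ZMod 2) (LinearMap.ker (res P)) := by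
    let g : LinearMap.ker ((res P).domRestrict V) →ₗ[ZMod 2] LinearMap.ker (res P) :=
      LinearMap.codRestrict _ (V.subtype ∘ₗ (LinearMap.ker ((res P).domRestrict V)).subtype) (by
        intro u
        have := u.2
        rw [LinearMap.mem_ker] at this ⊢
        exact this)
    apply LinearMap.finrank_le_finrank_of_injective (f := g)
    intro u v huv
    have h4 := congrArg (fun w : LinearMap.ker (res P) => (w : κ → ZMod 2)) huv
    apply Subtype.ext
    apply Subtype.ext
    exact h4
  omega

lemma res_vec {n : ℕ} {κ : Type} (P : κ → Prop) (M : Fin n → (κ → ZMod 2)) (x : Inp n) :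
    vec (fun i => res P (M i)) x = res P (vec M x) := by
  unfold vec
  rw [map_sum]
  apply sum_congr rfl
  intro i _
  split_ifs
  · rfl
  · rw [map_zero]

lemma blk_eq {n N ρ : ℕ} {F : Type} [Field F] [Algebra (ZMod 2) F]
    (e : (Fin ρ → ZMod 2) ≃ₗ[ZMod 2] F) (M : Fin n → (Fin N × Fin 6 × Fin ρ → ZMod 2))
    (x : Inp n) (j : Fin N) (c : Fin 6) :
    blk M e x j c = e (fun a => vec M x (j, c, a)) := by
  unfold blk vec
  have : (fun a => (∑ i, if x i = true then M i else 0) (j, c, a)) =
      ∑ i, (if x i = true then (fun a => M i (j, c, a)) else (0 : Fin ρ → ZMod 2)) := by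
    funext a
    rw [Finset.sum_apply, Finset.sum_apply]
    apply sum_congr rfl
    intro i _
    split_ifs <;> rfl
  rw [this, map_sum]
  apply sum_congr rfl
  intro i _
  split_ifs
  · rfl
  · rw [map_zero]

theorem t_FIB : S_FIB := by
  classical
  intro n N ρ s F _ _ _ e M A hr I z
  have hF : Fintype.card F = 2 ^ ρ := by
    rw [← Fintype.card_congr e.toEquiv]
    simp
  let P : Fin N × Fin 6 × Fin ρ → Prop := fun p => p.1 ∈ I
  have hcard : Fintype.card {p // P p} = I.card * (6 * ρ) := by
    let f : {p // P p} ≃ I × (Fin 6 × Fin ρ) :=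
      { toFun := fun p => (⟨p.1.1, p.2⟩, p.1.2)
        invFun := fun q => ⟨(q.1.1, q.2), q.1.2⟩
        left_inv := fun _ => rfl
        right_inv := fun _ => rfl }
    rw [Fintype.card_congr f]
    simp
  have h1 := rank_res P (Submodule.span (ZMod 2) (M '' A))
  rw [hcard, Submodule.map_span, ← Set.image_comp] at h1
  have hcardι : Fintype.card (Fin N × Fin 6 × Fin ρ) = N * (6 * ρ) := by simp
  rw [hcardι] at h1
  let v : {p // P p} → ZMod 2 := fun p => e.symm (z p.1.1 p.1.2.1) p.1.2.2
  set T := (univ.filter fun x : Inp n => (∀ i, i ∉ A → x i = false) ∧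
        ∀ j ∈ I, blk M e x j = z j) with hT
  have h2 := card_fib (fun i => res P (M i)) A T (fun a ha => (mem_filter.1 ha).2.1) v (by
    intro a ha
    rw [res_vec]
    funext p
    have h3 := congrFun ((mem_filter.1 ha).2.2 p.1.1 p.2) p.1.2.1
    rw [blk_eq] at h3
    show vec M a p.1 = e.symm (z p.1.1 p.1.2.1) p.1.2.2
    rw [← h3, LinearEquiv.symm_apply_apply])
  have h4 : (fun i => res P (M i)) '' (A : Set (Fin n)) = (res P ∘ M) '' (A : Set (Fin n)) := rfl
  rw [h4] at h2
  set r := Module.finrank (ZMod 2) (Submodule.span (ZMod 2) ((res P ∘ M) '' (A : Set (Fin n))))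
    with hrdef
  rw [hF, ← pow_mul]
  have h5 : ρ * (6 * I.card) ≤ r + s := by
    have h6 : I.card * (6 * ρ) = ρ * (6 * I.card) := by ring
    have h7 : (⇑(res P) ∘ M) '' (A : Set (Fin n)) = (res P ∘ M) '' (A : Set (Fin n)) := rfl
    omega
  calc T.card * 2 ^ (ρ * (6 * I.card)) ≤ T.card * 2 ^ (r + s) :=
        Nat.mul_le_mul_left _ (Nat.pow_le_pow_right (by norm_num) h5)
    _ = T.card * 2 ^ r * 2 ^ s := by rw [pow_add]; ring
    _ ≤ 2 ^ A.card * 2 ^ s := Nat.mul_le_mul_right _ h2
    _ = 2 ^ (A.card + s) := by rw [pow_add]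

end Pool.Agent.LLead.LT2
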